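import Mathlib
import Pool.Agent.Lib.helper2.DRC

set_option autoImplicit false

namespace Pool.Agent.Results.MP_3a192b_co.Growth

open Finset Pool.Agent.Lib.H2DRC

/-- The graph `G(A, ε)`: distinct indices are adjacent iff the sets meet in fewer than `ε n`
points. -/
def smallInter {n m : ℕ} (A : Fin m → Finset (Fin n)) (ε : ℝ) : SimpleGraph (Fin m) where
  Adj i j := i ≠ j ∧ ((A i ∩ A j).card : ℝ) < ε * n
  symm := ⟨fun i j h => ⟨h.1.symm, by rw [inter_comm]; exact h.2⟩⟩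
  loopless := ⟨fun i h => h.1 rfl⟩

/-- `χ*(n,m,c,ε)`: the largest chromatic number of `G(A, ε)` over all `m`-tuples of subsets of an
`n`-set, each of size `> c n`. -/
noncomputable def chiStar (n m : ℕ) (c ε : ℝ) : ℕ :=
  sSup {s : ℕ | ∃ A : Fin m → Finset (Fin n), (∀ k, c * n < ((A k).card : ℝ)) ∧
    (smallInter A ε).chromaticNumber = s}

theorem result (c ε : ℝ) (r n m : ℕ) (hc : 0 < c) (hc' : c ≤ 1 / 2) (hr : 1 ≤ r)
    (hε : 0 < ε) (hεc : ε ≤ c ^ (r + 1)) (hn : 1 ≤ n) (hm : 1 ≤ m) :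
    1 / 16 * ((min m (2 ^ n) : ℕ) : ℝ) ^ (ε ^ 2 / 8) ≤ chiStar n m c ε ∧
    (chiStar n m c ε : ℝ) ≤ 4 * r / c * ((min m (2 ^ n) : ℕ) : ℝ) ^ (1 / (r : ℝ)) := by
  classical
  set S := {s : ℕ | ∃ A : Fin m → Finset (Fin n), (∀ k, c * n < ((A k).card : ℝ)) ∧
    (smallInter A ε).chromaticNumber = s} with hS
  have hc1 : c < 1 := by linarith
  have hε2 : ε ≤ 1 / 2 := by
    have : c ^ (r + 1) ≤ c := pow_le_of_le_one hc.le hc1.le (by omega)
    linarith
  obtain ⟨A0, hA0, hI0⟩ := construct n m hn hm ε hε.le hε2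
  have hA0' : ∀ k, c * n < ((A0 k).card : ℝ) := by
    intro k
    have h1 : (n : ℝ) < 2 * (A0 k).card := by exact_mod_cast hA0 k
    have h2 : (0 : ℝ) ≤ n := by positivity
    nlinarith
  set N : ℝ := ((min m (2 ^ n) : ℕ) : ℝ) with hN
  have hNpos : 0 < N := by
    rw [hN]
    exact_mod_cast lt_min (by omega) (by positivity)
  have hup : ∀ s ∈ S, (s : ℝ) ≤ 4 * r / c * N ^ (1 / (r : ℝ)) := by
    rintro s ⟨A, hA, hs⟩
    obtain ⟨K, hK, col, h1, h2⟩ := colour_min n m r hr A c ε hc hc1 hε.le hεc hA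
    have hcol : (smallInter A ε).Colorable K := by
      refine ⟨SimpleGraph.Coloring.mk (fun i => ⟨col i, h1 i⟩) ?_⟩
      intro i j hij heq
      have := h2 i j (congrArg Fin.val heq)
      exact absurd hij.2 (not_lt.mpr this.le)
    have := hcol.chromaticNumber_le
    rw [hs] at this
    have h3 : s ≤ K := by exact_mod_cast this
    have h4 : (s : ℝ) ≤ K := by exact_mod_cast h3
    exact h4.trans hK
  have hbdd : BddAbove S := by
    refine ⟨⌈4 * r / c * N ^ (1 / (r : ℝ))⌉₊, fun s hs => ?_⟩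
    have := (hup s hs).trans (Nat.le_ceil _)
    exact_mod_cast this
  have hfin : (smallInter A0 ε).chromaticNumber ≠ ⊤ :=
    ne_top_of_le_ne_top (ENat.natCast_ne_top _)
      (SimpleGraph.colorable_of_fintype (smallInter A0 ε)).chromaticNumber_le
  obtain ⟨K, hK⟩ := ENat.ne_top_iff_exists.mp hfin
  have hKS : K ∈ S := ⟨A0, hA0', hK.symm⟩
  refine ⟨?_, hup _ (Nat.sSup_mem ⟨K, hKS⟩ hbdd)⟩
  have h1 : K ≤ chiStar n m c ε := le_csSup hbdd hKS
  have h1' : (K : ℝ) ≤ chiStar n m c ε := by exact_mod_cast h1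
  refine le_trans ?_ h1'
  obtain ⟨col⟩ : (smallInter A0 ε).Colorable K :=
    SimpleGraph.chromaticNumber_le_iff_colorable.mp hK.ge
  have h2 := card_eq_sum_card_fiberwise (s := (univ : Finset (Fin m))) (t := univ)
    (f := col) (fun i _ => mem_univ _)
  rw [card_univ, Fintype.card_fin] at h2
  have h3 : (m : ℝ) ≤ K * (16 * m * N ^ (-(ε ^ 2 / 8))) := by
    have h4 := sum_le_card_nsmul (univ : Finset (Fin K))
      (fun y => (((univ : Finset (Fin m)).filter (fun i => col i = y)).card : ℝ))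
      (16 * m * N ^ (-(ε ^ 2 / 8))) (fun y _ => hI0 _ (by
        intro i hi j hj hij
        by_contra hlt
        push Not at hlt
        have := col.valid (show (smallInter A0 ε).Adj i j from ⟨hij, hlt⟩)
        exact this ((mem_filter.mp hi).2.trans (mem_filter.mp hj).2.symm)))
    rw [← Nat.cast_sum, ← h2, card_univ, Fintype.card_fin, nsmul_eq_mul] at h4
    exact h4
  rw [Real.rpow_neg hNpos.le] at h3
  have hp : 0 < N ^ (ε ^ 2 / 8) := by positivity
  have hmpos : (0 : ℝ) < m := by exact_mod_cast hm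
  have h5 : (m : ℝ) * N ^ (ε ^ 2 / 8) ≤ K * (16 * m) := by
    calc (m : ℝ) * N ^ (ε ^ 2 / 8)
        ≤ K * (16 * m * (N ^ (ε ^ 2 / 8))⁻¹) * N ^ (ε ^ 2 / 8) := by gcongr
      _ = _ := by field_simp
  nlinarith

end Pool.Agent.Results.MP_3a192b_co.Growth
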